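import Pool.Agent.W586.CS.Stm

/-! Project CS: the filtration has finite dimension. -/

set_option autoImplicit false
open MvPolynomial

namespace Pool.Agent.W202.CS.Fil1

open Pool.Agent.W586.CS

theorem mem_res {d : ℕ} {ι : Type} {m : ℕ} {f : V d ι} (hf : f ∈ Fil d ι m) (I : Finset (Fin d))
    (a : ι) : f I a ∈ restrictTotalDegree (Fin d) ℝ m := by
  rw [mem_restrictTotalDegree]
  refine Finset.sup_le fun s hs => ?_
  have h1 := hf I a s (mem_support_iff.1 hs)
  have h2 : (s.sum fun _ e => e) = s.degree := rfl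
  omega

/-- the entries -/
noncomputable def T (d : ℕ) (ι : Type) (m : ℕ) :
    Fil d ι m →ₗ[ℝ] (Finset (Fin d) → ι → restrictTotalDegree (Fin d) ℝ m) where
  toFun f := fun I a => ⟨f.1 I a, mem_res f.2 I a⟩
  map_add' f g := rfl
  map_smul' c f := rfl

theorem main : S_FIL1 := by
  intro d ι _ m
  have := Fintype.ofFinite ι
  refine FiniteDimensional.of_injective (T d ι m) ?_
  intro f g h
  apply Subtype.ext
  funext I a
  exact congrArg Subtype.val (congrFun (congrFun h I) a)

end Pool.Agent.W202.CS.Fil1
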